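import Pool.Agent.MP_961ca8_al.H15.Spec

/-! Row AL: three elementary algebraic steps. -/

namespace Pool.Agent.MP_961ca8_al.H15

open Finset

theorem row_rel {R : Type} [CommRing R] (x y s : R) {E D W b : ℕ} (hD : b + E ≤ D)
    (hW : b + E ≤ W) :
    ∑ j ∈ range (E + 1), (E.choose j : ℤ) • (s ^ (W - (b + j)) * x ^ (b + j) * y ^ (D - (b + j))) =
      s ^ (W - (b + E)) * x ^ b * y ^ (D - (b + E)) * (x + s * y) ^ E := by
  rw [add_pow, mul_sum]
  refine sum_congr rfl fun j hj => ?_
  have hj' := mem_range.1 hj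
  rw [show W - (b + j) = W - (b + E) + (E - j) by omega,
    show D - (b + j) = D - (b + E) + (E - j) by omega, zsmul_eq_mul, Int.cast_natCast]
  ring

theorem row : RowStmt := by
  intro R _ x y s E D l0 l W h1 h2 h3 h4
  let M : ℕ → R := fun l => s ^ (W - l) * x ^ l * y ^ (D - l)
  let S : AddSubgroup R :=
    { carrier := {g | ∃ (c : ℕ → ℤ) (h : R),
        g = h * (x + s * y) ^ E + ∑ j ∈ range E, (c j : R) * M (l0 + j)}
      zero_mem' := ⟨0, 0, by simp⟩
      add_mem' := by
        rintro _ _ ⟨c, h, rfl⟩ ⟨c', h', rfl⟩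
        refine ⟨c + c', h + h', ?_⟩
        simp only [Pi.add_apply, Int.cast_add, add_mul, sum_add_distrib]
        ring
      neg_mem' := by
        rintro _ ⟨c, h, rfl⟩
        refine ⟨-c, -h, ?_⟩
        simp only [Pi.neg_apply, Int.cast_neg, neg_mul, sum_neg_distrib]
        ring }
  have hrel : ∀ b, b + E ≤ D → b + E ≤ W →
      ∑ j ∈ range (E + 1), (E.choose j : ℤ) • M (b + j) ∈ S := fun b hD hW =>
    ⟨0, _, by rw [row_rel x y s hD hW]; simp; rfl⟩
  have hup : ∀ l, l0 ≤ l → l ≤ D → l ≤ W → M l ∈ S := by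
    intro l
    induction l using Nat.strong_induction_on with
    | _ l ih =>
      intro k1 k2 k3
      rcases Nat.lt_or_ge l (l0 + E) with k | k
      · refine ⟨fun j => if j = l - l0 then 1 else 0, 0, ?_⟩
        simp only [zero_mul, zero_add, Int.cast_ite, Int.cast_one, Int.cast_zero, ite_mul, one_mul,
          sum_ite_eq', mem_range]
        rw [if_pos (by omega), show l0 + (l - l0) = l by omega]
      · have h := hrel (l - E) (by omega) (by omega)
        rw [sum_range_succ, Nat.choose_self, Nat.cast_one, one_smul,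
          show l - E + E = l by omega] at h
        refine (S.add_mem_cancel_left (sum_mem fun j hj => S.zsmul_mem ?_ _)).1 h
        have := mem_range.1 hj
        exact ih _ (by omega) (by omega) (by omega) (by omega)
  have hdn : ∀ n l, l0 ≤ l + n → l ≤ D → l ≤ W → M l ∈ S := by
    intro n
    induction n with
    | zero => exact hup
    | succ n ih =>
      intro l k1 k2 k3
      rcases Nat.lt_or_ge l l0 with k | k
      · have h := hrel l (by omega) (by omega)
        rw [sum_range_succ', Nat.choose_zero_right, Nat.cast_one, one_smul, add_zero] at h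
        refine (S.add_mem_cancel_left (sum_mem fun j hj => S.zsmul_mem ?_ _)).1 h
        have := mem_range.1 hj
        exact ih _ (by omega) (by omega) (by omega)
      · exact hup l k k2 k3
  exact hdn l0 l (by omega) h2 h3

theorem inact : InactStmt := by
  intro R _ x y s E N w l h
  have hm : s ^ w * x ^ l ∈ Ideal.span {(x + s * y) ^ E, s ^ N} := by
    rw [show x ^ l = (x + s * y + -y * s) ^ l by ring, add_pow (x + s * y), mul_sum]
    refine sum_mem fun j hj => ?_
    have hj' := mem_range.1 hj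
    rcases Nat.lt_or_ge j E with k | k
    · refine Ideal.mem_span_pair.2 ⟨0, (x + s * y) ^ j * (-y) ^ (l - j) * (l.choose j : R) *
        s ^ (w + (l - j) - N), ?_⟩
      rw [zero_mul, zero_add, mul_assoc, ← pow_add, Nat.sub_add_cancel (by omega), mul_pow]
      ring
    · refine Ideal.mem_span_pair.2 ⟨s ^ w * (-y * s) ^ (l - j) * (l.choose j : R) *
        (x + s * y) ^ (j - E), 0, ?_⟩
      rw [zero_mul, add_zero, mul_assoc, ← pow_add, Nat.sub_add_cancel k]
      ring
  obtain ⟨a, b, e⟩ := Ideal.mem_span_pair.1 hm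
  exact ⟨a, b, e.symm⟩

theorem approx : ApproxStmt := by
  intro B R _ _ _ s N J L g0 hN h0 hs
  have key : ∀ n : ℕ, ∃ z ∈ (⨆ i, L i), ∀ i, ∃ x ∈ L i, g0 + z - s ^ n • x ∈ J i := by
    intro n
    induction n with
    | zero => exact ⟨0, zero_mem _, by simpa using h0⟩
    | succ n ih =>
      obtain ⟨z, hz, hx⟩ := ih
      choose x hx1 hx2 using hx
      refine ⟨z - s ^ n • ∑ j, x j, sub_mem hz (Submodule.smul_mem _ _
        (sum_mem fun j _ => Submodule.mem_iSup_of_mem j (hx1 j))), fun i => ?_⟩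
      have h1 : ∃ x' ∈ L i, ∑ j ∈ univ.erase i, x j - s • x' ∈ J i := by
        refine sum_induction x (fun v => ∃ x' ∈ L i, v - s • x' ∈ J i) ?_ ⟨0, zero_mem _, by simp⟩
          fun j hj => hs i j (ne_of_mem_erase hj).symm _ (hx1 j)
        rintro a b ⟨a', ha1, ha2⟩ ⟨b', hb1, hb2⟩
        refine ⟨a' + b', add_mem ha1 hb1, ?_⟩
        rw [smul_add, add_sub_add_comm]
        exact add_mem ha2 hb2
      obtain ⟨x', k1, k2⟩ := h1
      refine ⟨-x', neg_mem k1, ?_⟩
      have e : g0 + (z - s ^ n • ∑ j, x j) - s ^ (n + 1) • -x' =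
          (g0 + z - s ^ n • x i) - s ^ n • (∑ j ∈ univ.erase i, x j - s • x') := by
        rw [← add_sum_erase _ _ (mem_univ i)]
        module
      rw [e]
      exact sub_mem (hx2 i) (Submodule.smul_of_tower_mem _ _ k2)
  obtain ⟨z, hz, hx⟩ := key N
  refine ⟨z, hz, fun i => ?_⟩
  obtain ⟨x, -, h⟩ := hx i
  refine (Submodule.sub_mem_iff_left _ ?_).1 h
  rw [Algebra.smul_def, map_pow]
  exact Ideal.mul_mem_right _ _ (hN i)

end Pool.Agent.MP_961ca8_al.H15
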